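import Pool.Agent.H56.ER2.Targets

/-!
# Board er2_modules, row QPR: reversal of the outgoing path
-/

set_option autoImplicit false

open Pool.Agent.H48.ER Pool.Agent.H52.ER2 Pool.Agent.H66.ER2 Pool.Agent.H56.ER2

namespace Pool.Agent.H26.ER2

theorem PF_rev {V : Type} {G : SimpleGraph V} {n : ℕ} {g : ℕ → V} (h : PF G n g) :
    PF G n (rz n g) := by
  refine ⟨?_, ?_⟩
  · intro i j hi hj e
    have := h.inj (n - i) (n - j) (Nat.sub_le _ _) (Nat.sub_le _ _) e
    omega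
  · intro i j hi hj
    show G.Adj (g (n - i)) (g (n - j)) ↔ _
    rw [h.adj (n - i) (n - j) (Nat.sub_le _ _) (Nat.sub_le _ _)]
    omega

theorem pf_QPR (hRVZ : T_RVZ) : T_QPR := by
  intro V G v n z m g hS hQ
  obtain ⟨-, hA, hB, hW⟩ := hRVZ V G v n z hS
  have h3 := hQ.three
  refine ⟨PF_rev hQ.pf, ?_, ?_, h3, ?_, ?_⟩
  · rw [hA]
    show g (m - 0) ∈ _
    rw [Nat.sub_zero]
    exact hQ.inB
  · rw [hB]
    show g (m - m) ∈ _
    rw [Nat.sub_self]
    exact hQ.inA
  · intro i _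
    exact hQ.nv (m - i) (Nat.sub_le _ _)
  · intro i h0 hi hadj
    have h1 := hQ.ty (m - i) (by omega) (by omega) hadj
    intro h2
    apply h1
    unfold NW at h2 ⊢
    rw [hW] at h2
    exact h2

end Pool.Agent.H26.ER2
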